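import Pool.Agent.H79.RV.Stm
import Pool.Agent.H79.RV.C2
import Pool.Agent.H79.RT.Bdg

/-!
# MP_a7284e_an, project RV, row W4 (backup): the chosen site has a smaller first coordinate
-/

set_option autoImplicit false

namespace Pool.Agent.H47.RV

open Finset Classical
open Pool.Agent.H79.RT Pool.Agent.H79.RU Pool.Agent.H79.RV

variable {n m : ℕ}

/-- one plus the chosen index of the column `i`, zero if there is none -/
noncomputable def vS (S : ℕ → ℕ → Q n → Q m → Prop) (y : Q m) (i : ℕ) (x : Q n) : ℕ :=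
  if h : ∃ c, S i c x y then Classical.choose h + 1 else 0

/-- the weights: the conditional probabilities -/
noncomputable def wt (S : ℕ → ℕ → Q n → Q m → Prop) (y : Q m) (i j : ℕ) (x : Q n) : ℝ :=
  if j = 0 then 1 else mm S i (j - 1) x y

theorem wt_zero (S : ℕ → ℕ → Q n → Q m → Prop) (y : Q m) (i : ℕ) (x : Q n) :
    wt S y i 0 x = 1 := if_pos rfl

theorem wt_succ (S : ℕ → ℕ → Q n → Q m → Prop) (y : Q m) (i j : ℕ) (x : Q n) :
    wt S y i (j + 1) x = mm S i j x y := by
  unfold wt
  rw [if_neg (by omega), Nat.add_sub_cancel]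

theorem vS_iff {S : ℕ → ℕ → Q n → Q m → Prop} (hS : Sng S) (y : Q m) (i c : ℕ) (x : Q n) :
    S i c x y ↔ vS S y i x = c + 1 := by
  unfold vS
  constructor
  · intro h
    have h1 : ∃ c, S i c x y := ⟨c, h⟩
    rw [dif_pos h1]
    have h2 := Classical.choose_spec h1
    rw [(hS.2 _ _ _ _ _ _ h2 h).2]
  · intro h
    by_cases h1 : ∃ c, S i c x y
    · rw [dif_pos h1] at h
      have h2 := Classical.choose_spec h1
      have h3 : Classical.choose h1 = c := by omega
      rwa [h3] at h2
    · rw [dif_neg h1] at h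
      omega

theorem vS_le {S : ℕ → ℕ → Q n → Q m → Prop} (hS : Sng S) (y : Q m) (i : ℕ) (x : Q n) :
    vS S y i x ≤ m := by
  rcases Nat.eq_zero_or_pos (vS S y i x) with h | h
  · omega
  · obtain ⟨c, hc⟩ : ∃ c, vS S y i x = c + 1 := ⟨vS S y i x - 1, by omega⟩
    have h1 := (vS_iff hS y i c x).2 hc
    have h2 := (hS.1 _ _ _ _ h1).2
    omega

theorem av_pos {F : Q n → ℝ} (h : ∀ x, 0 ≤ F x) (x : Q n) (hx : 0 < F x) : 0 < av F := by
  unfold av
  exact div_pos (lt_of_lt_of_le hx (single_le_sum (fun z _ => h z) (mem_univ x))) (by positivity)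

theorem mix_self (i : ℕ) (x : Q n) : mix i x x = x := by
  funext l
  unfold mix
  split_ifs <;> rfl

theorem mm_nonneg (S : ℕ → ℕ → Q n → Q m → Prop) (i j : ℕ) (x : Q n) (y : Q m) :
    0 ≤ mm S i j x y := by
  unfold mm c2
  exact av2_nonneg fun u v => ind_nonneg _

theorem mm_le (S : ℕ → ℕ → Q n → Q m → Prop) (i j : ℕ) (x : Q n) (y : Q m) :
    mm S i j x y ≤ 1 := by
  unfold mm c2
  refine av_le_const fun u => av_le_const fun v => ?_
  show ind (S i j (mix i x u) (mix j y v)) ≤ 1
  unfold ind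
  split_ifs <;> norm_num

theorem mm_pos {S : ℕ → ℕ → Q n → Q m → Prop} {i j : ℕ} {x : Q n} {y : Q m} (h : S i j x y) :
    0 < mm S i j x y := by
  unfold mm c2
  refine av_pos (fun u => av_nonneg fun v => ind_nonneg _) x ?_
  refine av_pos (fun v => ind_nonneg _) y ?_
  show 0 < ind (S i j (mix i x x) (mix j y y))
  rw [mix_self, mix_self, ind_pos h]
  exact one_pos

theorem seg (P : ℕ → Prop) (hP : ∀ j j', j' ≤ j → P j → P j') (d : ℕ → ℝ) (k : ℕ) :
    ∃ N, ∑ j ∈ range k, d j * ind (P j) = ∑ j ∈ range N, d j := by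
  induction k with
  | zero => exact ⟨0, by simp⟩
  | succ k ih =>
    by_cases h : P k
    · refine ⟨k + 1, sum_congr rfl fun j hj => ?_⟩
      rw [mem_range] at hj
      rw [ind_pos (hP k j (by omega) h), mul_one]
    · obtain ⟨N, hN⟩ := ih
      exact ⟨N, by rw [sum_range_succ, hN, ind_neg h, mul_zero, add_zero]⟩

/-- Cauchy-Schwarz for averages -/
theorem av_cs (X A B : Q n → ℝ) (hA : ∀ x, 0 ≤ A x) (hB : ∀ x, 0 ≤ B x)
    (h : ∀ x, X x ^ 2 ≤ A x * B x) : av X ^ 2 ≤ av A * av B := by
  unfold av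
  rw [div_pow, ← mul_div_mul_comm, sq (2 ^ n : ℝ)]
  exact div_le_div_of_nonneg_right (sum_sq_le_sum_mul_sum_of_sq_le_mul _ (fun x _ => hA x)
    (fun x _ => hB x) fun x _ => h x) (by positivity)

/-- the coefficients of the column `i` -/
noncomputable def WW (τ : ℕ → ℕ → ℕ) (S : ℕ → ℕ → Q n → Q m → Prop)
    (b : ℕ → ℕ → Q n → Q m → ℝ) (i : ℕ) (x : Q n) (y : Q m) : ℝ :=
  ∑ j ∈ range m, sg j y * b i j x y * ind (∃ a c, S a c x y ∧ a < i ∧ τ i j < τ a c)

theorem WW_sq {C : ℝ} (hC : ∀ (n : ℕ) (d : ℕ → Q n → ℝ), (∀ i, Od i (d i)) →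
    (∀ i, Inv (i + 1) (d i)) → ∃ M : Q n → ℝ, (∀ x, 0 ≤ M x) ∧
    (∀ x N, |∑ i ∈ range N, d i x| ≤ M x) ∧
    av (fun x => M x ^ (2 * 1)) ≤ C * av (fun x => (∑ i ∈ range n, d i x ^ 2) ^ 1))
    (hC0 : 0 ≤ C) {τ : ℕ → ℕ → ℕ} (hτ : Clk τ) (S : ℕ → ℕ → Q n → Q m → Prop)
    {b : ℕ → ℕ → Q n → Q m → ℝ} (hb : ∀ i j, Pr i j (b i j)) (i : ℕ) (x : Q n) :
    av (fun y => WW τ S b i x y ^ 2) ≤ C * ∑ j ∈ range m, av fun y => b i j x y ^ 2 := by
  obtain ⟨M, hM0, hM1, hM2⟩ := hC m (fun j y => sg j y * b i j x y)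
    (fun j y => by
      show sg j (fl j y) * b i j x (fl j y) = -(sg j y * b i j x y)
      rw [sg_od j y, ((hb i j).2 x).fl_eq le_rfl]; ring)
    (fun j l hl y => by
      show sg j (fl l y) * b i j x (fl l y) = sg j y * b i j x y
      rw [(sg_inv (n := m) j).fl_eq hl, ((hb i j).2 x).fl_eq (by omega)])
  have h1 : ∀ y, WW τ S b i x y ^ 2 ≤ M y ^ (2 * 1) := fun y => by
    obtain ⟨N, hN⟩ := seg (fun j => ∃ a c, S a c x y ∧ a < i ∧ τ i j < τ a c)
      (fun j j' hj ⟨a, c, h1, h2, h3⟩ => ⟨a, c, h1, h2, by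
        rcases Nat.eq_or_lt_of_le hj with h | h
        · rw [h]; exact h3
        · exact (hτ.mj i j' j h).trans h3⟩) (fun j => sg j y * b i j x y) m
    have h2 : WW τ S b i x y = ∑ j ∈ range N, sg j y * b i j x y := hN
    have h3 := hM1 y N
    rw [h2, mul_one, ← sq_abs]
    exact pow_le_pow_left₀ (abs_nonneg _) h3 2
  refine (av_mono h1).trans (hM2.trans (mul_le_mul_of_nonneg_left ?_ hC0))
  rw [← av_sum]
  refine av_mono fun y => ?_
  rw [pow_one]
  refine sum_le_sum fun j _ => ?_
  rw [mul_pow]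
  have h4 : sg j y ^ 2 ≤ 1 := by
    rw [← sq_abs]
    exact pow_le_one₀ (abs_nonneg _) (sg_abs_le j y)
  nlinarith [sq_nonneg (b i j x y)]

/-- the logarithms -/
theorem log_eq {S : ℕ → ℕ → Q n → Q m → Prop} (hS : Sng S) (y : Q m) (i : ℕ) (x : Q n) :
    -Real.log (wt S y i (vS S y i x) x) =
      ∑ j ∈ range m, ind (S i j x y) * -Real.log (mm S i j x y) := by
  rcases Nat.eq_zero_or_pos (vS S y i x) with h | h
  · rw [h, wt_zero, Real.log_one, neg_zero]
    symm
    refine sum_eq_zero fun j _ => ?_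
    rw [ind_neg, zero_mul]
    intro h1
    rw [vS_iff hS] at h1
    omega
  · obtain ⟨c, hc⟩ : ∃ c, vS S y i x = c + 1 := ⟨vS S y i x - 1, by omega⟩
    have h1 := (vS_iff hS y i c x).2 hc
    have h2 := (hS.1 _ _ _ _ h1).2
    rw [hc, wt_succ, sum_eq_single c]
    · rw [ind_pos h1, one_mul]
    · intro j _ hj
      rw [ind_neg, zero_mul]
      intro h3
      exact hj (hS.2 _ _ _ _ _ _ h3 h1).2
    · intro h3
      exact absurd (mem_range.2 h2) h3

theorem left2 (h0 : SC2) (h3 : SDu2) : SLeft2 := by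
  obtain ⟨C, hC0, hC⟩ := bdg 1 le_rfl
  refine ⟨4 * C, by positivity, ?_⟩
  intro n m τ S b hτ hS hb
  -- the entropy sum for fixed `y`
  set A : Q m → ℝ := fun y => 4 * ∑ i ∈ range n, av fun x : Q n =>
    -Real.log (wt S y i (vS S y i x) x) + ∑ j ∈ range m, wt S y i (j + 1) x with hA
  set B : Q m → ℝ := fun y => ∑ i ∈ range n, av fun x => WW τ S b i x y ^ 2 with hB
  set X : Q m → ℝ := fun y => ∑ i ∈ range n, av fun x => sg i x * WW τ S b i x y with hX
  have hwt0 : ∀ y i j (x : Q n), 0 ≤ wt S y i j x := fun y i j x => by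
    unfold wt
    split_ifs
    · exact zero_le_one
    · exact mm_nonneg S _ _ _ _
  have hlog : ∀ y i (x : Q n), 0 ≤ -Real.log (wt S y i (vS S y i x) x) := fun y i x => by
    rw [log_eq hS]
    refine sum_nonneg fun j _ => mul_nonneg (ind_nonneg _) ?_
    have := Real.log_nonpos (mm_nonneg S i j x y) (mm_le S i j x y)
    linarith
  have hA0 : ∀ y, 0 ≤ A y := fun y => by
    refine mul_nonneg (by norm_num) (sum_nonneg fun i _ => av_nonneg fun x => ?_)
    exact add_nonneg (hlog y i x) (sum_nonneg fun j _ => hwt0 _ _ _ _)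
  have hB0 : ∀ y, 0 ≤ B y := fun y => sum_nonneg fun i _ => av_nonneg fun x => sq_nonneg _
  -- the one-parameter inequality
  have hXAB : ∀ y, X y ^ 2 ≤ A y * B y := fun y => by
    refine h3 n m (vS S y) (wt S y) (fun i x => WW τ S b i x y) (vS_le hS y) (wt_zero S y)
      (fun i j => ?_) (fun i j x => hwt0 y i j x) (fun i x => ?_) fun i _ x x' hx => ?_
    · intro l hl x
      show wt S y i j (fl l x) = wt S y i j x
      unfold wt
      split_ifs
      · rfl
      · exact ((h0 n m i (j - 1)).1 fun x y => ind (S i (j - 1) x y)).1 y l hl x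
    · rcases Nat.eq_zero_or_pos (vS S y i x) with h | h
      · rw [h, wt_zero]
        exact one_pos
      · obtain ⟨c, hc⟩ : ∃ c, vS S y i x = c + 1 := ⟨vS S y i x - 1, by omega⟩
        rw [hc, wt_succ]
        exact mm_pos ((vS_iff hS y i c x).2 hc)
    · have h1 : mix i x (fun _ => false) = mix i x' fun _ => false := congrArg Prod.fst hx
      have h2 : (fun a => if a < i then vS S y a x else 0) =
        fun a => if a < i then vS S y a x' else 0 := congrArg Prod.snd hx
      have h4 : ∀ a < i, ∀ c, (S a c x y ↔ S a c x' y) := fun a ha c => by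
        have h5 := congrFun h2 a
        simp only [if_pos ha] at h5
        rw [vS_iff hS, vS_iff hS, h5]
      have h6 : ∀ j, b i j x y = b i j x' y := fun j =>
        ((hb i j).1 y).congr fun l hl => by
          have := congrFun h1 l
          unfold mix at this
          simpa only [if_pos hl] using this
      show WW τ S b i x y = WW τ S b i x' y
      unfold WW
      refine sum_congr rfl fun j _ => ?_
      rw [h6 j]
      congr 1
      refine ind_congr ?_
      constructor
      · rintro ⟨a, c, h7, h8, h9⟩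
        exact ⟨a, c, (h4 a h8 c).1 h7, h8, h9⟩
      · rintro ⟨a, c, h7, h8, h9⟩
        exact ⟨a, c, (h4 a h8 c).2 h7, h8, h9⟩
  have hcs := av_cs X A B hA0 hB0 hXAB
  -- the three averages
  have e1 : pair b (fun i j x y => ∃ a c, S a c x y ∧ a < i ∧ τ i j < τ a c) = av X := by
    unfold pair
    rw [hX, av_sum]
    refine sum_congr rfl fun i _ => ?_
    rw [← av2_sum, av2_swap]
    unfold av2
    congr 1
    funext y
    congr 1
    funext x
    unfold WW
    rw [mul_sum]
    exact sum_congr rfl fun j _ => by ring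
  have e2 : av B ≤ C * nrg b := by
    rw [hB, av_sum]
    unfold nrg
    rw [mul_sum]
    refine sum_le_sum fun i _ => ?_
    have h1 : av (fun y => av fun x => WW τ S b i x y ^ 2) =
        av fun x => av fun y => WW τ S b i x y ^ 2 :=
      (av2_swap fun x y => WW τ S b i x y ^ 2).symm
    rw [h1]
    refine (av_mono fun x => WW_sq hC hC0 hτ S hb i x).trans ?_
    rw [av_mul_left, av_sum]
    exact le_rfl
  have e3 : av A = 4 * (cnt S + ent' S) := by
    rw [hA, av_mul_left, av_sum]
    congr 1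
    unfold cnt ent'
    rw [← sum_add_distrib]
    refine sum_congr rfl fun i _ => ?_
    have h1 : (av fun y => av fun x : Q n => -Real.log (wt S y i (vS S y i x) x) +
        ∑ j ∈ range m, wt S y i (j + 1) x) = av2 fun (x : Q n) (y : Q m) =>
        (∑ j ∈ range m, ind (S i j x y) * -Real.log (mm S i j x y)) +
          ∑ j ∈ range m, mm S i j x y := by
      rw [av2_swap]
      unfold av2
      congr 1
      funext y
      congr 1
      funext x
      rw [log_eq hS]
      exact congrArg _ (sum_congr rfl fun j _ => wt_succ S y i j x)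
    rw [h1, av2_add, av2_sum, av2_sum, add_comm]
    congr 1
    · refine sum_congr rfl fun j _ => ?_
      have h2 := (h0 n m i j).2.1 (fun x y => ind (S i j x y)) (fun _ _ => 1)
        ⟨fun _ _ _ _ => rfl, fun _ _ _ _ => rfl⟩
      simp only [mul_one] at h2
      exact h2
    · refine sum_congr rfl fun j _ => ?_
      have h2 := (h0 n m i j).2.1 (fun x y => ind (S i j x y))
        (fun x y => -Real.log (mm S i j x y)) ⟨fun y l hl x => by
          show -Real.log (mm S i j (fl l x) y) = -Real.log (mm S i j x y)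
          rw [show mm S i j (fl l x) y = mm S i j x y from
            ((h0 n m i j).1 fun x y => ind (S i j x y)).1 y l hl x], fun x l hl y => by
          show -Real.log (mm S i j x (fl l y)) = -Real.log (mm S i j x y)
          rw [show mm S i j x (fl l y) = mm S i j x y from
            ((h0 n m i j).1 fun x y => ind (S i j x y)).2 x l hl y]⟩
      rw [← h2]
      congr 1
      funext x y
      show mm S i j x y * -Real.log (mm S i j x y) = -mm S i j x y * Real.log (mm S i j x y)
      ring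
  rw [e1]
  have hA1 : 0 ≤ av A := av_nonneg hA0
  calc av X ^ 2 ≤ av A * av B := hcs
    _ ≤ av A * (C * nrg b) := mul_le_mul_of_nonneg_left e2 hA1
    _ = 4 * C * (cnt S + ent' S) * nrg b := by rw [e3]; ring

end Pool.Agent.H47.RV
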