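import Pool.Agent.H79.RV.StmF
import Pool.Agent.H79.RV.C2

/-!
# MP_a7284e_an, project RV, row X12 (backup): one logarithm of the amplitude
-/

set_option autoImplicit false

namespace Pool.Agent.H47.RV

open MeasureTheory Finset Classical
open Pool.Agent.H79.RT Pool.Agent.H79.RU Pool.Agent.H79.RV

variable {n m : ℕ}

/-! ### the blocks -/

/-- the lower end of the block `r` -/
noncomputable def lwa (r : ℕ) : ℝ := (1 / 2 : ℝ) ^ (2 ^ r)

/-- `a` belongs to the block `r` -/
def lwP (r : ℕ) (a : ℝ) : Prop := lwa r ≤ a ∧ ∀ s < r, a < lwa s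

theorem lwa_pos (r : ℕ) : 0 < lwa r := by
  unfold lwa
  positivity

theorem lwP_unique {r s : ℕ} {a : ℝ} (h : lwP r a) (h' : lwP s a) : r = s := by
  rcases lt_trichotomy r s with h1 | h1 | h1
  · exact absurd h.1 (not_le.2 (h'.2 r h1))
  · exact h1
  · exact absurd h'.1 (not_le.2 (h.2 s h1))

theorem lwP_exists {a : ℝ} (h : 0 < a) : ∃ r, lwP r a := by
  have h1 : ∃ r, lwa r ≤ a := by
    obtain ⟨k, hk⟩ := exists_pow_lt_of_lt_one h (by norm_num : (1 / 2 : ℝ) < 1)
    refine ⟨k, le_trans ?_ hk.le⟩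
    unfold lwa
    exact pow_le_pow_of_le_one (by norm_num) (by norm_num) Nat.lt_two_pow_self.le
  exact ⟨Nat.find h1, Nat.find_spec h1, fun s hs => not_le.1 (Nat.find_min h1 hs)⟩

theorem lw_log_lwa (r : ℕ) : Real.log (lwa r) = -(2 ^ r * Real.log 2) := by
  unfold lwa
  rw [Real.log_pow, one_div, Real.log_inv]
  push_cast
  ring

/-- the weight in the block `r` is at least `2 ^ r / 4` -/
theorem lw_block {r : ℕ} {a : ℝ} (ha : 0 < a) (h : lwP r a) :
    (2 : ℝ) ^ r / 4 ≤ 1 + max 0 (Real.log (1 / a)) := by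
  rcases Nat.eq_zero_or_pos r with h0 | h0
  · rw [h0, pow_zero]
    have := le_max_left 0 (Real.log (1 / a))
    linarith
  · obtain ⟨s, hs⟩ : ∃ s, r = s + 1 := ⟨r - 1, by omega⟩
    have h1 := h.2 s (by omega)
    have h2 : Real.log a < Real.log (lwa s) := Real.log_lt_log ha h1
    rw [lw_log_lwa] at h2
    have h3 : Real.log (1 / a) = -Real.log a := by rw [one_div, Real.log_inv]
    have h4 := le_max_right 0 (Real.log (1 / a))
    have h5 : (1 / 2 : ℝ) ≤ Real.log 2 := by
      have := Real.log_two_gt_d9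
      linarith
    have h6 : (0 : ℝ) < 2 ^ s := by positivity
    rw [hs, pow_succ]
    nlinarith

/-! ### the pieces -/

/-- the part of `D` where the amplitude `A` is in the block `r` -/
noncomputable def lwD (D A : ℕ → ℕ → Q n → Q m → ℝ) (r : ℕ) (i j : ℕ) (x : Q n) (y : Q m) : ℝ :=
  if lwP r (A i j x y) then D i j x y else 0

theorem lwD_ar {D A : ℕ → ℕ → Q n → Q m → ℝ} (h : Ar2 n m D A) (r : ℕ) :
    Ar2 n m (lwD D A r) (lwD A A r) where
  odx i j y x := by
    show lwD D A r i j (fl i x) y = -lwD D A r i j x y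
    unfold lwD
    rw [(h.pax i j y).fl_eq le_rfl x]
    split_ifs
    · exact h.odx i j y x
    · rw [neg_zero]
  invx i j y l hl x := by
    show lwD D A r i j (fl l x) y = lwD D A r i j x y
    unfold lwD
    rw [(h.pax i j y).fl_eq (by omega : i ≤ l) x]
    split_ifs
    · exact h.invx i j y l hl x
    · rfl
  ody i j x y := by
    unfold lwD
    rw [(h.pay i j x).fl_eq le_rfl y]
    split_ifs
    · exact h.ody i j x y
    · rw [neg_zero]
  invy i j x l hl y := by
    unfold lwD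
    rw [(h.pay i j x).fl_eq (by omega : j ≤ l) y]
    split_ifs
    · exact h.invy i j x l hl y
    · rfl
  pax i j y l hl x := by
    show lwD A A r i j (fl l x) y = lwD A A r i j x y
    unfold lwD
    rw [(h.pax i j y).fl_eq hl x]
  pay i j x l hl y := by
    unfold lwD
    rw [(h.pay i j x).fl_eq hl y]
  na i j x y := by
    unfold lwD
    split_ifs
    · exact h.na i j x y
    · exact le_rfl
  dom i j x y := by
    unfold lwD
    split_ifs
    · exact h.dom i j x y
    · rw [abs_zero]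
  za i j hij x y := by
    unfold lwD
    rw [h.za i j hij x y]
    split_ifs <;> rfl

theorem lwD_sum {D A : ℕ → ℕ → Q n → Q m → ℝ} (h : Ar2 n m D A) {R : ℕ} {i j : ℕ} {x : Q n}
    {y : Q m} (hR : A i j x y = 0 ∨ ∃ r < R, lwP r (A i j x y)) :
    D i j x y = ∑ r ∈ range R, lwD D A r i j x y := by
  rcases hR with h0 | ⟨r, hr, h1⟩
  · have h1 : D i j x y = 0 := by
      have := h.dom i j x y
      rw [h0] at this
      exact abs_nonpos_iff.1 this
    rw [h1]
    symm
    refine sum_eq_zero fun r _ => ?_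
    unfold lwD
    rw [h1]
    split_ifs <;> rfl
  · rw [sum_eq_single_of_mem r (mem_range.2 hr)]
    · unfold lwD
      rw [if_pos h1]
    · intro s _ hs
      unfold lwD
      rw [if_neg fun h2 => hs (lwP_unique h2 h1)]

/-- finitely many blocks are enough -/
theorem lw_R {D A : ℕ → ℕ → Q n → Q m → ℝ} (h : Ar2 n m D A) :
    ∃ R : ℕ, ∀ i < n, ∀ j < m, ∀ (x : Q n) (y : Q m),
      A i j x y = 0 ∨ ∃ r < R, lwP r (A i j x y) := by
  have h1 : ∀ i j x y, ∃ r, A i j x y = 0 ∨ lwP r (A i j x y) := fun i j x y => by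
    rcases (h.na i j x y).eq_or_lt with h2 | h2
    · exact ⟨0, Or.inl h2.symm⟩
    · obtain ⟨r, hr⟩ := lwP_exists h2
      exact ⟨r, Or.inr hr⟩
  choose ρ hρ using h1
  refine ⟨((range n ×ˢ range m) ×ˢ (univ : Finset (Q n × Q m))).sup
    (fun p => ρ p.1.1 p.1.2 p.2.1 p.2.2) + 1, fun i hi j hj x y => ?_⟩
  rcases hρ i j x y with h2 | h2
  · exact Or.inl h2
  · refine Or.inr ⟨ρ i j x y, ?_, h2⟩
    have h3 : ((i, j), (x, y)) ∈ (range n ×ˢ range m) ×ˢ (univ : Finset (Q n × Q m)) := by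
      simp only [mem_product, mem_range, mem_univ, and_true]
      exact ⟨hi, hj⟩
    have h4 := le_sup (f := fun p : (ℕ × ℕ) × (Q n × Q m) => ρ p.1.1 p.1.2 p.2.1 p.2.2) h3
    exact Nat.lt_succ_of_le h4

theorem lw_MX {D A : ℕ → ℕ → Q n → Q m → ℝ} (h : Ar2 n m D A) {R : ℕ}
    (hR : ∀ i < n, ∀ j < m, ∀ (x : Q n) (y : Q m),
      A i j x y = 0 ∨ ∃ r < R, lwP r (A i j x y)) (x : Q n) (y : Q m) :
    MX D x y ≤ ∑ r ∈ range R, MX (lwD D A r) x y := by
  refine MX_le fun k _ => ?_
  have h1 : XS D k x y = ∑ r ∈ range R, XS (lwD D A r) k x y := by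
    have e : ∀ g : ℕ → ℕ → ℕ → ℝ, ∑ r ∈ range R, ∑ i ∈ range n, ∑ j ∈ range m, g r i j =
        ∑ i ∈ range n, ∑ j ∈ range m, ∑ r ∈ range R, g r i j := fun g => by
      rw [sum_comm]
      exact sum_congr rfl fun i _ => sum_comm
    unfold XS
    rw [e fun r i j => if i + j ≤ k then lwD D A r i j x y else 0]
    refine sum_congr rfl fun i hi => sum_congr rfl fun j hj => ?_
    rw [mem_range] at hi hj
    split_ifs
    · exact lwD_sum h (hR i hi j hj x y)
    · rw [sum_const_zero]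
  rw [h1]
  exact (abs_sum_le_sum_abs _ _).trans (sum_le_sum fun r _ => abs_XS_le_MX _ _ _ _)

/-! ### the levels -/

/-- the ratio of the levels -/
noncomputable def lwρ (β : ℝ) : ℝ := (2 : ℝ) ^ (-(β - 1) / 2)

theorem lwρ_pos (β : ℝ) : 0 < lwρ β := Real.rpow_pos_of_pos two_pos _

theorem lwρ_lt {β : ℝ} (h : 1 < β) : lwρ β < 1 := by
  unfold lwρ
  exact Real.rpow_lt_one_of_one_lt_of_neg one_lt_two (by linarith)

theorem lwρ_pow (β : ℝ) (r : ℕ) : 1 / (lwρ β ^ r) ^ 2 * 2 ^ r = ((2 : ℝ) ^ r) ^ β := by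
  unfold lwρ
  rw [← Real.rpow_natCast ((2 : ℝ) ^ (-(β - 1) / 2)) r, ← Real.rpow_mul two_pos.le,
    ← Real.rpow_natCast (((2 : ℝ) ^ (-(β - 1) / 2 * (r : ℝ)))) 2, ← Real.rpow_mul two_pos.le,
    one_div, ← Real.rpow_neg two_pos.le, ← Real.rpow_natCast (2 : ℝ) r,
    ← Real.rpow_add two_pos, ← Real.rpow_mul two_pos.le]
  congr 1
  push_cast
  ring

/-- the level of the block `r` -/
noncomputable def lwt (β t : ℝ) (r : ℕ) : ℝ := t * (1 - lwρ β) * lwρ β ^ r

theorem lwt_pos {β t : ℝ} (h : 1 < β) (ht : 0 < t) (r : ℕ) : 0 < lwt β t r := by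
  unfold lwt
  have h1 := lwρ_pos β
  have h2 := lwρ_lt h
  have h3 : 0 < 1 - lwρ β := by linarith
  positivity

theorem lwt_le {β t : ℝ} (h : 1 < β) (ht : 0 < t) (r : ℕ) : lwt β t r ≤ t := by
  unfold lwt
  have h1 := lwρ_pos β
  have h2 := lwρ_lt h
  have h3 : (1 - lwρ β) * lwρ β ^ r ≤ 1 :=
    mul_le_one₀ (by linarith) (by positivity) (pow_le_one₀ h1.le h2.le)
  calc t * (1 - lwρ β) * lwρ β ^ r = t * ((1 - lwρ β) * lwρ β ^ r) := by ring
    _ ≤ t * 1 := mul_le_mul_of_nonneg_left h3 ht.le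
    _ = t := mul_one t

theorem lwt_sum {β t : ℝ} (h : 1 < β) (ht : 0 < t) (R : ℕ) :
    ∑ r ∈ range R, lwt β t r ≤ t := by
  unfold lwt
  have h1 := lwρ_pos β
  have h2 := lwρ_lt h
  rw [← mul_sum]
  have h3 : (1 - lwρ β) * ∑ r ∈ range R, lwρ β ^ r = 1 - lwρ β ^ R := by
    have := geom_sum_mul_neg (lwρ β) R
    linarith
  rw [mul_assoc, h3]
  have h4 : 0 < lwρ β ^ R := pow_pos h1 R
  nlinarith

/-- the pointwise inequality in one block -/
theorem lw_pt {β : ℝ} (hβ : 1 < β) {C t : ℝ} (hC : 0 ≤ C) (ht : 0 < t) {r : ℕ} {a : ℝ}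
    (ha : 0 < a) (h : lwP r a) :
    C / lwt β t r ^ 2 * (1 + max 0 (Real.log (lwt β t r / lwa r))) * a ^ 2 ≤
      cw (2 * 4 ^ β * (C + 1) / (1 - lwρ β) ^ 2) t * lw β a := by
  have hρ := lwρ_pos β
  have hρ1 := lwρ_lt hβ
  have h3 : 0 < 1 - lwρ β := by linarith
  have htr := lwt_pos hβ ht r
  -- the logarithm
  have h4 : 1 + max 0 (Real.log (lwt β t r / lwa r)) ≤
      (1 + max 0 (Real.log t)) * (2 * 2 ^ r) := by
    have h5 : Real.log (lwt β t r / lwa r) ≤ Real.log t + 2 ^ r := by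
      rw [Real.log_div htr.ne' (lwa_pos r).ne', lw_log_lwa]
      have h6 := Real.log_le_log htr (lwt_le hβ ht r)
      have h7 : Real.log 2 ≤ 1 := by
        have := Real.log_two_lt_d9
        linarith
      have h8 : (0 : ℝ) < 2 ^ r := by positivity
      nlinarith
    have h6 : (1 : ℝ) ≤ 2 ^ r := one_le_pow₀ one_le_two
    have h7 := le_max_left 0 (Real.log t)
    have h8 := le_max_right 0 (Real.log t)
    have h9 : max 0 (Real.log (lwt β t r / lwa r)) ≤ max 0 (Real.log t) + 2 ^ r :=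
      max_le (by linarith) (by linarith)
    nlinarith
  -- the weight
  have h5 : ((2 : ℝ) ^ r) ^ β ≤ 4 ^ β * (1 + max 0 (Real.log (1 / a))) ^ β := by
    rw [← Real.mul_rpow (by norm_num) (by positivity)]
    refine Real.rpow_le_rpow (by positivity) ?_ (by linarith)
    have := lw_block ha h
    linarith
  have h6 : C / lwt β t r ^ 2 * (2 * 2 ^ r) = 2 * C / (t ^ 2 * (1 - lwρ β) ^ 2) *
      ((2 : ℝ) ^ r) ^ β := by
    rw [← lwρ_pow]
    unfold lwt
    field_simp
  have h7 : 0 ≤ 1 + max 0 (Real.log t) := by positivity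
  calc C / lwt β t r ^ 2 * (1 + max 0 (Real.log (lwt β t r / lwa r))) * a ^ 2
      ≤ C / lwt β t r ^ 2 * ((1 + max 0 (Real.log t)) * (2 * 2 ^ r)) * a ^ 2 := by gcongr
    _ = (1 + max 0 (Real.log t)) * (C / lwt β t r ^ 2 * (2 * 2 ^ r)) * a ^ 2 := by ring
    _ = (1 + max 0 (Real.log t)) * (2 * C / (t ^ 2 * (1 - lwρ β) ^ 2) *
      ((2 : ℝ) ^ r) ^ β) * a ^ 2 := by rw [h6]
    _ ≤ (1 + max 0 (Real.log t)) * (2 * (C + 1) / (t ^ 2 * (1 - lwρ β) ^ 2) *
      (4 ^ β * (1 + max 0 (Real.log (1 / a))) ^ β)) * a ^ 2 := by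
        gcongr
        linarith
    _ = cw (2 * 4 ^ β * (C + 1) / (1 - lwρ β) ^ 2) t * lw β a := by
        unfold cw lw
        field_simp

/-- X12 -/
theorem lwT (h : SWkA) : SLw := by
  obtain ⟨C, hC0, hC⟩ := h
  intro β hβ
  have hρ1 := lwρ_lt hβ
  have h1ρ : 0 < 1 - lwρ β := by linarith
  set K : ℝ := 2 * 4 ^ β * (C + 1) / (1 - lwρ β) ^ 2 with hK
  have hK0 : 0 < K := by
    have : (0 : ℝ) < 4 ^ β := Real.rpow_pos_of_pos (by norm_num) _
    positivity
  have hcw : ∀ t, 0 < t → 0 < cw K t := fun t ht => by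
    unfold cw
    positivity
  have hlw : ∀ s, 0 ≤ lw β s := fun s => by
    unfold lw
    positivity
  refine ⟨K, hK0, ⟨?_, hlw, ?_, hcw, ?_⟩⟩
  · unfold lw
    exact (measurable_id.pow_const 2).mul (((measurable_const.add (measurable_const.max
      (Real.measurable_log.comp (measurable_const.div measurable_id)))).pow_const β))
  · unfold lw
    norm_num
  · intro n m D A hDA t ht
    obtain ⟨R, hR⟩ := lw_R hDA
    -- the union
    have h1 : ∀ x y, ind (t < MX D x y) ≤
        ∑ r ∈ range R, ind (lwt β t r < MX (lwD D A r) x y) := fun x y => by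
      by_cases h2 : t < MX D x y
      · have h3 : ∃ r ∈ range R, lwt β t r < MX (lwD D A r) x y := by
          by_contra hc
          push Not at hc
          have h4 := sum_le_sum hc
          have h5 := lw_MX hDA hR x y
          have h6 := lwt_sum hβ ht R
          linarith
        obtain ⟨r, hr, h3⟩ := h3
        rw [ind_pos h2]
        calc (1 : ℝ) = ind (lwt β t r < MX (lwD D A r) x y) := (ind_pos h3).symm
          _ ≤ _ := single_le_sum (f := fun r => ind (lwt β t r < MX (lwD D A r) x y))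
            (fun s _ => ind_nonneg _) hr
      · rw [ind_neg h2]
        exact sum_nonneg fun r _ => ind_nonneg _
    -- the blocks
    have h2 : ∀ r, av2 (fun x y => ind (lwt β t r < MX (lwD D A r) x y)) ≤
        C / lwt β t r ^ 2 * (1 + max 0 (Real.log (lwt β t r / lwa r))) *
          ∑ i ∈ range n, ∑ j ∈ range m, av2 fun x y => lwD A A r i j x y ^ 2 := fun r =>
      hC n m (lwD D A r) (lwD A A r) (lwa r) (lwt β t r) (lwD_ar hDA r) (lwa_pos r)
        (lwt_pos hβ ht r) fun i j x y => by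
          unfold lwD
          split_ifs with h3
          · exact Or.inr h3.1
          · exact Or.inl rfl
    -- the pointwise bound
    have h3 : ∀ i ∈ range n, ∀ j ∈ range m, ∀ x y, ∑ r ∈ range R,
        C / lwt β t r ^ 2 * (1 + max 0 (Real.log (lwt β t r / lwa r))) *
          lwD A A r i j x y ^ 2 ≤ cw K t * lw β (A i j x y) := fun i hi j hj x y => by
      have h0 : 0 ≤ cw K t * lw β (A i j x y) := mul_nonneg (hcw t ht).le (hlw _)
      rcases hR i (mem_range.1 hi) j (mem_range.1 hj) x y with h4 | ⟨r, hr, h4⟩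
      · rw [sum_eq_zero]
        · exact h0
        · intro r _
          unfold lwD
          rw [h4]
          split_ifs <;> norm_num
      · rw [sum_eq_single_of_mem r (mem_range.2 hr)]
        · have h5 : 0 < A i j x y := lt_of_lt_of_le (lwa_pos r) h4.1
          unfold lwD
          rw [if_pos h4]
          exact lw_pt hβ hC0 ht h5 h4
        · intro s _ hs
          unfold lwD
          rw [if_neg fun h5 => hs (lwP_unique h5 h4)]
          ring
    calc av2 (fun x y => ind (t < MX D x y))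
        ≤ av2 (fun x y => ∑ r ∈ range R, ind (lwt β t r < MX (lwD D A r) x y)) := av2_mono h1
      _ = ∑ r ∈ range R, av2 (fun x y => ind (lwt β t r < MX (lwD D A r) x y)) := av2_sum _ _
      _ ≤ ∑ r ∈ range R, C / lwt β t r ^ 2 * (1 + max 0 (Real.log (lwt β t r / lwa r))) *
          ∑ i ∈ range n, ∑ j ∈ range m, av2 fun x y => lwD A A r i j x y ^ 2 :=
        sum_le_sum fun r _ => h2 r
      _ = ∑ i ∈ range n, ∑ j ∈ range m, av2 fun x y => ∑ r ∈ range R,
          C / lwt β t r ^ 2 * (1 + max 0 (Real.log (lwt β t r / lwa r))) *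
            lwD A A r i j x y ^ 2 := by
        simp only [mul_sum]
        rw [sum_comm]
        refine sum_congr rfl fun i _ => ?_
        rw [sum_comm]
        refine sum_congr rfl fun j _ => ?_
        rw [av2_sum]
        exact sum_congr rfl fun r _ => (av2_mul_left _ _).symm
      _ ≤ ∑ i ∈ range n, ∑ j ∈ range m, av2 fun x y => cw K t * lw β (A i j x y) :=
        sum_le_sum fun i hi => sum_le_sum fun j hj => av2_mono fun x y => h3 i hi j hj x y
      _ = cw K t * ∑ i ∈ range n, ∑ j ∈ range m, av2 fun x y => lw β (A i j x y) := by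
        rw [mul_sum]
        refine sum_congr rfl fun i _ => ?_
        rw [mul_sum]
        exact sum_congr rfl fun j _ => av2_mul_left _ _

end Pool.Agent.H47.RV
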